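import Mathlib

/-!
# Deficient multipliers (MP_c5ead3_nt)

For `n ≥ 2` let `a n` be the least deficient positive integer `k` such that `k * n` is
non-deficient.  We determine the set of all values of `a`: it consists of `3` and of all
almost perfect numbers, that is, of all `k` with `σ k = 2 k - 1`.
-/

namespace Pool.Agent.Results.MP_c5ead3_nt.ImageIsAlmostPerfect

open Finset

/-- The sum of the positive divisors of `m`. -/
def sig (m : ℕ) : ℕ := ∑ d ∈ m.divisors, d

/-- `k` is positive and deficient, and `k * n` is non-deficient. -/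
def Admissible (n k : ℕ) : Prop :=
  1 ≤ k ∧ sig k < 2 * k ∧ 2 * (k * n) ≤ sig (k * n)

/-- The least deficient positive integer `k` for which `k * n` is non-deficient. -/
noncomputable def a (n : ℕ) : ℕ := sInf {k | Admissible n k}

/-- `k` is almost perfect: `σ k = 2 k - 1`. -/
def AlmostPerfect (k : ℕ) : Prop := sig k + 1 = 2 * k

lemma sig_eq (m : ℕ) : sig m = ArithmeticFunction.sigma 1 m := by
  rw [ArithmeticFunction.sigma_one_apply]; rfl

lemma sig_mul_of_coprime {m n : ℕ} (h : m.Coprime n) : sig (m * n) = sig m * sig n := by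
  rw [sig_eq, sig_eq, sig_eq]
  exact ArithmeticFunction.isMultiplicative_sigma.map_mul_of_coprime h

lemma sig_mul_le (m n : ℕ) : sig (m * n) ≤ sig m * sig n := by
  classical
  unfold sig
  rw [Nat.divisors_mul, Finset.sum_mul_sum, ← Finset.sum_product']
  rw [Finset.mul_def, ]
  exact Finset.sum_image_le_of_nonneg (fun _ _ => Nat.zero_le _)

lemma sig_one : sig 1 = 1 := by decide

lemma sig_pos {m : ℕ} (hm : 0 < m) : 0 < sig m := by
  unfold sig
  exact Finset.sum_pos' (fun _ _ => Nat.zero_le _) ⟨1, by simp [hm.ne'], by norm_num⟩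

lemma sig_two_pow (j : ℕ) : sig (2 ^ j) + 1 = 2 ^ (j + 1) := by
  unfold sig
  rw [Nat.sum_divisors_prime_pow Nat.prime_two]
  have := Nat.geomSum_eq (le_refl 2) (j + 1)
  have h2 : 1 ≤ 2 ^ (j + 1) := Nat.one_le_two_pow
  simp at this
  omega

lemma succ_le_sig {n : ℕ} (hn : 2 ≤ n) : n + 1 ≤ sig n := by
  unfold sig
  have h1 : ({1, n} : Finset ℕ) ⊆ n.divisors := by
    intro x hx
    simp only [Finset.mem_insert, Finset.mem_singleton] at hx
    rcases hx with rfl | rfl
    · simp; omega
    · simp; omega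
  calc n + 1 = ∑ d ∈ ({1, n} : Finset ℕ), d := by
        rw [Finset.sum_pair (by omega)]; ring
    _ ≤ _ := Finset.sum_le_sum_of_subset h1

/-- Every multiple of `6` is non-deficient. -/
lemma two_mul_le_sig_of_six_dvd {m : ℕ} (hm : 0 < m) (h6 : 6 ∣ m) : 2 * m ≤ sig m := by
  obtain ⟨t, rfl⟩ := h6
  unfold sig
  have ht : 0 < t := by omega
  have h1 : ({6 * t, 3 * t, 2 * t, t} : Finset ℕ) ⊆ (6 * t).divisors := by
    intro x hx
    simp only [Finset.mem_insert, Finset.mem_singleton] at hx
    rw [Nat.mem_divisors]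
    refine ⟨?_, by omega⟩
    rcases hx with rfl | rfl | rfl | rfl
    · exact dvd_refl _
    · exact ⟨2, by ring⟩
    · exact ⟨3, by ring⟩
    · exact ⟨6, by ring⟩
  calc 2 * (6 * t) = ∑ d ∈ ({6 * t, 3 * t, 2 * t, t} : Finset ℕ), d := by
        rw [Finset.sum_insert (by simp only [Finset.mem_insert, Finset.mem_singleton]; omega),
          Finset.sum_insert (by simp only [Finset.mem_insert, Finset.mem_singleton]; omega),
          Finset.sum_pair (by omega)]
        ring
    _ ≤ _ := Finset.sum_le_sum_of_subset h1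

lemma admissible_three {n : ℕ} (hn : 2 ≤ n) (h : 2 ∣ n) : Admissible n 3 := by
  refine ⟨by norm_num, by decide, ?_⟩
  apply two_mul_le_sig_of_six_dvd (by omega)
  obtain ⟨t, rfl⟩ := h
  exact ⟨t, by ring⟩

lemma admissible_two_pow_iff {n j : ℕ} (hodd : ¬ 2 ∣ n) :
    Admissible n (2 ^ j) ↔ 2 ^ (j + 1) * n ≤ (2 ^ (j + 1) - 1) * sig n := by
  have hcop : (2 ^ j).Coprime n := by
    apply Nat.Coprime.pow_left
    exact (Nat.Prime.coprime_iff_not_dvd Nat.prime_two).2 hodd
  have hs := sig_two_pow j
  have hs' : sig (2 ^ j) = 2 ^ (j + 1) - 1 := by omega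
  have hp : 2 ^ (j + 1) = 2 * 2 ^ j := by ring
  have h1 : 1 ≤ 2 ^ j := Nat.one_le_two_pow
  unfold Admissible
  rw [sig_mul_of_coprime hcop, hs']
  constructor
  · rintro ⟨_, _, h⟩
    calc 2 ^ (j + 1) * n = 2 * (2 ^ j * n) := by ring
      _ ≤ _ := h
  · intro h
    refine ⟨h1, by omega, ?_⟩
    calc 2 * (2 ^ j * n) = 2 ^ (j + 1) * n := by ring
      _ ≤ _ := h

lemma exists_two_pow_admissible {n : ℕ} (hn : 2 ≤ n) (hodd : ¬ 2 ∣ n) :
    ∃ j, Admissible n (2 ^ j) := by
  refine ⟨n, (admissible_two_pow_iff hodd).2 ?_⟩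
  have h1 : n + 1 ≤ 2 ^ (n + 1) := by
    have := Nat.lt_two_pow_self (n := n + 1)
    omega
  have h2 := succ_le_sig hn
  obtain ⟨P, hP⟩ : ∃ P, 2 ^ (n + 1) = P + 1 := ⟨2 ^ (n + 1) - 1, by omega⟩
  rw [hP] at h1 ⊢
  simp only [Nat.add_sub_cancel]
  calc (P + 1) * n = P * n + n := by ring
    _ ≤ P * n + P := by omega
    _ = P * (n + 1) := by ring
    _ ≤ P * sig n := Nat.mul_le_mul_left _ h2

lemma admissible_nonempty {n : ℕ} (hn : 2 ≤ n) : {k | Admissible n k}.Nonempty := by
  by_cases h : 2 ∣ n
  · exact ⟨3, admissible_three hn h⟩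
  · obtain ⟨j, hj⟩ := exists_two_pow_admissible hn h
    exact ⟨_, hj⟩

lemma a_admissible {n : ℕ} (hn : 2 ≤ n) : Admissible n (a n) :=
  Nat.sInf_mem (admissible_nonempty hn)

lemma a_le {n k : ℕ} (h : Admissible n k) : a n ≤ k := Nat.sInf_le h

/-- The value `a n` is `3` or almost perfect. -/
theorem a_eq_three_or_almostPerfect {n : ℕ} (hn : 2 ≤ n) : a n = 3 ∨ AlmostPerfect (a n) := by
  by_cases heven : 2 ∣ n
  · have h3 : a n ≤ 3 := a_le (admissible_three hn heven)
    have h1 := (a_admissible hn).1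
    have h : a n = 1 ∨ a n = 2 ∨ a n = 3 := by omega
    rcases h with h | h | h
    · right; rw [h]; unfold AlmostPerfect; decide
    · right; rw [h]; unfold AlmostPerfect; decide
    · left; exact h
  · right
    obtain ⟨hK1, hK2, hK3⟩ := a_admissible hn
    set K := a n with hK
    classical
    have hex := exists_two_pow_admissible hn heven
    set j := Nat.find hex with hj
    have hjA : Admissible n (2 ^ j) := Nat.find_spec hex
    have hKj : K ≤ 2 ^ j := a_le hjA
    rcases Nat.lt_or_eq_of_le hKj with hlt | heq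
    swap
    · rw [heq]
      unfold AlmostPerfect
      rw [sig_two_pow]; ring
    rcases Nat.eq_zero_or_pos j with hj0 | hjpos
    · rw [hj0] at hlt
      simp at hlt
      omega
    obtain ⟨i, hi⟩ : ∃ i, j = i + 1 := ⟨j - 1, by omega⟩
    have hnot : ¬ Admissible n (2 ^ i) := Nat.find_min hex (by omega)
    rw [admissible_two_pow_iff heven, not_le] at hnot
    rw [hi] at hlt
    obtain ⟨P, hP⟩ : ∃ P, 2 ^ (i + 1) = P + 1 := ⟨2 ^ (i + 1) - 1, by
      have : 1 ≤ 2 ^ (i + 1) := Nat.one_le_two_pow
      omega⟩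
    rw [hP] at hnot hlt
    simp only [Nat.add_sub_cancel] at hnot
    have hsub := sig_mul_le K n
    have hsK : 0 < sig K := sig_pos hK1
    -- P * sig n < (P+1) * n,  2 * K * n ≤ sig K * sig n
    have h1 : 2 * K * n * P < sig K * (P + 1) * n := by
      calc 2 * K * n * P = (2 * (K * n)) * P := by ring
        _ ≤ (sig K * sig n) * P := Nat.mul_le_mul_right _ (hK3.trans hsub)
        _ = sig K * (P * sig n) := by ring
        _ < sig K * ((P + 1) * n) := Nat.mul_lt_mul_of_pos_left hnot hsK
        _ = sig K * (P + 1) * n := by ring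
    have h2 : 2 * K * P < sig K * (P + 1) := by
      have : (2 * K * P) * n < (sig K * (P + 1)) * n := by
        calc (2 * K * P) * n = 2 * K * n * P := by ring
          _ < _ := h1
      exact lt_of_mul_lt_mul_right this (Nat.zero_le _)
    unfold AlmostPerfect
    by_contra hne
    have h3 : sig K + 2 ≤ 2 * K := by omega
    have h4 : (sig K + 2) * (P + 1) ≤ 2 * K * (P + 1) := Nat.mul_le_mul_right _ h3
    nlinarith

/-- The product of the first `t` primes from the `i`-th prime on (indices from `0`). -/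
noncomputable def blockProd (i t : ℕ) : ℕ := ∏ s ∈ range t, Nat.nth Nat.Prime (i + s)

lemma nth_prime (i : ℕ) : (Nat.nth Nat.Prime i).Prime := Nat.prime_nth_prime i

lemma nth_prime_strictMono : StrictMono (Nat.nth Nat.Prime) :=
  Nat.nth_strictMono Nat.infinite_setOfPred_prime

lemma sig_prime {p : ℕ} (hp : p.Prime) : sig p = p + 1 := by
  unfold sig
  rw [Nat.Prime.sum_divisors hp]

lemma blockProd_succ (i t : ℕ) :
    blockProd i (t + 1) = blockProd i t * Nat.nth Nat.Prime (i + t) := by
  unfold blockProd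
  rw [Finset.prod_range_succ]

lemma coprime_block {i t : ℕ} {q : ℕ} (hq : q.Prime)
    (h : q < Nat.nth Nat.Prime i ∨ Nat.nth Nat.Prime (i + t) ≤ q) : (blockProd i t).Coprime q := by
  unfold blockProd
  apply Nat.Coprime.prod_left
  intro s hs
  rw [Nat.coprime_primes (nth_prime _) hq]
  rcases h with h | h
  · have := nth_prime_strictMono.monotone (show i ≤ i + s by omega)
    omega
  · have := nth_prime_strictMono (show i + s < i + t by have := Finset.mem_range.1 hs; omega)
    omega

lemma sig_blockProd_succ (i t : ℕ) :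
    sig (blockProd i (t + 1)) = sig (blockProd i t) * (Nat.nth Nat.Prime (i + t) + 1) := by
  rw [blockProd_succ, sig_mul_of_coprime (coprime_block (nth_prime _) (Or.inr le_rfl)),
    sig_prime (nth_prime _)]

lemma blockProd_pos (i t : ℕ) : 0 < blockProd i t := by
  unfold blockProd
  exact Finset.prod_pos fun s _ => (nth_prime _).pos

/-- The abundancy of a block of primes is unbounded. -/
lemma sum_le_abundancy (i t : ℕ) :
    (∑ s ∈ range t, (1 : ℝ) / Nat.nth Nat.Prime (i + s)) * blockProd i t
      ≤ sig (blockProd i t) := by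
  induction t with
  | zero => simp
  | succ t ih =>
    rw [sig_blockProd_succ, blockProd_succ, Finset.sum_range_succ]
    have hp : (0 : ℝ) < Nat.nth Nat.Prime (i + t) := by exact_mod_cast (nth_prime _).pos
    have hb : (0 : ℝ) < blockProd i t := by exact_mod_cast blockProd_pos i t
    have h1 : (blockProd i t : ℝ) ≤ sig (blockProd i t) := by
      have : blockProd i t ≤ sig (blockProd i t) := by
        unfold sig
        exact Finset.single_le_sum (f := fun d => d) (fun _ _ => Nat.zero_le _)
          (Nat.mem_divisors_self _ (blockProd_pos i t).ne')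
      exact_mod_cast this
    push_cast
    set P : ℝ := (Nat.nth Nat.Prime (i + t) : ℝ)
    set B : ℝ := (blockProd i t : ℝ)
    set S : ℝ := (sig (blockProd i t) : ℝ)
    have h2 : (∑ s ∈ range t, (1 : ℝ) / Nat.nth Nat.Prime (i + s) + 1 / P) * (B * P)
        = (∑ s ∈ range t, (1 : ℝ) / Nat.nth Nat.Prime (i + s)) * B * P + B := by
      field_simp
    rw [h2]
    nlinarith [mul_le_mul_of_nonneg_right ih hp.le]

lemma not_summable_nth (i : ℕ) :
    ¬ Summable (fun s : ℕ => (1 : ℝ) / Nat.nth Nat.Prime (i + s)) := by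
  intro h
  have h1 : Summable (fun s : ℕ => (1 : ℝ) / Nat.nth Nat.Prime s) := by
    rw [← summable_nat_add_iff i]
    simpa [add_comm] using h
  apply not_summable_one_div_on_primes
  have hinj : Function.Injective (Nat.nth Nat.Prime) := nth_prime_strictMono.injective
  have hr : Set.range (Nat.nth Nat.Prime) = {p | p.Prime} :=
    Nat.range_nth_of_infinite Nat.infinite_setOfPred_prime
  rw [← hinj.summable_iff]
  · refine h1.congr ?_
    intro s
    simp [Set.indicator]
  · intro x hx
    rw [hr] at hx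
    exact Set.indicator_of_notMem hx _

lemma exists_large_abundancy (i : ℕ) (C : ℝ) :
    ∃ t, C * blockProd i t < sig (blockProd i t) := by
  have h := not_summable_nth i
  have h0 : ∀ s : ℕ, 0 ≤ (1 : ℝ) / Nat.nth Nat.Prime (i + s) := fun s => by positivity
  have h1 := (not_summable_iff_tendsto_nat_atTop_of_nonneg h0).1 h
  obtain ⟨t, ht⟩ := (h1.eventually (Filter.eventually_gt_atTop C)).exists
  refine ⟨t, lt_of_lt_of_le ?_ (sum_le_abundancy i t)⟩
  exact mul_lt_mul_of_pos_right ht (by exact_mod_cast blockProd_pos i t)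

/-- For `k ≥ 2` there is `n ≥ 2`, coprime to `k`, with
`1 + 1/(2k-1) ≤ σ n / n < 1 + 1/(2k-3)`. -/
lemma exists_window {k : ℕ} (hk : 2 ≤ k) :
    ∃ n, 2 ≤ n ∧ n.Coprime k ∧ 2 * k * n ≤ (2 * k - 1) * sig n ∧
      (2 * k - 3) * sig n < (2 * k - 2) * n := by
  classical
  -- all primes from index `i` on exceed `4 k ^ 2`
  set i := 4 * k ^ 2 with hi
  have hbig : ∀ s, 4 * k ^ 2 < Nat.nth Nat.Prime (i + s) := by
    intro s
    have h1 : i + s < Nat.nth Nat.Prime (i + s) := by
      have := nth_prime_strictMono.le_apply (x := i + s)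
      have h2 : Nat.nth Nat.Prime (i + s) ≠ i + s := by
        intro heq
        have h3 := nth_prime_strictMono.le_apply (x := i + s)
        have h4 : ∀ m, m + 2 ≤ Nat.nth Nat.Prime m := by
          intro m
          induction m with
          | zero => exact (nth_prime 0).two_le
          | succ m ih =>
            have := nth_prime_strictMono (Nat.lt_succ_self m)
            simp only [Nat.succ_eq_add_one] at this
            omega
        have := h4 (i + s)
        omega
      omega
    omega
  -- abundancy at least `2k/(2k-1)` is reached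
  have hex : ∃ t, 2 * k * blockProd i t ≤ (2 * k - 1) * sig (blockProd i t) := by
    obtain ⟨t, ht⟩ := exists_large_abundancy i 2
    refine ⟨t, ?_⟩
    have h2 : 2 * blockProd i t < sig (blockProd i t) := by exact_mod_cast ht
    calc 2 * k * blockProd i t = k * (2 * blockProd i t) := by ring
      _ ≤ k * sig (blockProd i t) := Nat.mul_le_mul_left _ h2.le
      _ ≤ (2 * k - 1) * sig (blockProd i t) := Nat.mul_le_mul_right _ (by omega)
  set t := Nat.find hex with ht
  have ht1 : 2 * k * blockProd i t ≤ (2 * k - 1) * sig (blockProd i t) := Nat.find_spec hex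
  have ht0 : t ≠ 0 := by
    intro h0
    rw [h0] at ht1
    have : blockProd i 0 = 1 := by simp [blockProd]
    rw [this, sig_one] at ht1
    omega
  obtain ⟨u, hu⟩ : ∃ u, t = u + 1 := ⟨t - 1, by omega⟩
  have hmin : ¬ (2 * k * blockProd i u ≤ (2 * k - 1) * sig (blockProd i u)) :=
    Nat.find_min hex (by omega)
  rw [not_le] at hmin
  refine ⟨blockProd i t, ?_, ?_, ht1, ?_⟩
  · rw [hu, blockProd_succ]
    have h1 := hbig u
    have h2 := blockProd_pos i u
    have h3 := (nth_prime (i + u)).two_le
    nlinarith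
  · unfold blockProd
    apply Nat.Coprime.prod_left
    intro s _
    rw [Nat.Prime.coprime_iff_not_dvd (nth_prime _)]
    intro hd
    have := Nat.le_of_dvd (by omega) hd
    have h2 := hbig s
    nlinarith
  · rw [hu, sig_blockProd_succ, blockProd_succ]
    have hP := hbig u
    set P := Nat.nth Nat.Prime (i + u)
    set B := blockProd i u
    set S := sig (blockProd i u)
    have hB : 0 < B := blockProd_pos i u
    obtain ⟨c, hc⟩ : ∃ c, k = c + 2 := ⟨k - 2, by omega⟩
    subst hc
    have e1 : 2 * (c + 2) - 1 = 2 * c + 3 := by omega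
    have e2 : 2 * (c + 2) - 3 = 2 * c + 1 := by omega
    have e3 : 2 * (c + 2) - 2 = 2 * c + 2 := by omega
    rw [e1] at hmin
    rw [e2, e3]
    -- (2c+3) S < (2c+4) B ; P > 4 (c+2)^2 ; goal (2c+1) S (P+1) < (2c+2) B P
    have h1 : (2 * c + 3) * ((2 * c + 1) * (S * (P + 1))) < (2 * c + 3) * ((2 * c + 2) * (B * P)) := by
      have h2 : (2 * c + 3) * S * ((2 * c + 1) * (P + 1)) < (2 * c + 4) * B * ((2 * c + 1) * (P + 1)) := by
        apply Nat.mul_lt_mul_of_pos_right _ (by positivity)
        calc (2 * c + 3) * S < 2 * (c + 2) * B := hmin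
          _ = (2 * c + 4) * B := by ring
      have h3 : (2 * c + 4) * ((2 * c + 1) * (P + 1)) ≤ (2 * c + 3) * ((2 * c + 2) * P) := by
        nlinarith
      calc (2 * c + 3) * ((2 * c + 1) * (S * (P + 1)))
          = (2 * c + 3) * S * ((2 * c + 1) * (P + 1)) := by ring
        _ < (2 * c + 4) * B * ((2 * c + 1) * (P + 1)) := h2
        _ = B * ((2 * c + 4) * ((2 * c + 1) * (P + 1))) := by ring
        _ ≤ B * ((2 * c + 3) * ((2 * c + 2) * P)) := Nat.mul_le_mul_left _ h3
        _ = (2 * c + 3) * ((2 * c + 2) * (B * P)) := by ring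
    exact lt_of_mul_lt_mul_left h1 (Nat.zero_le _)

/-- Every almost perfect number is a value of `a`. -/
theorem exists_a_eq {k : ℕ} (hk : AlmostPerfect k) : ∃ n, 2 ≤ n ∧ a n = k := by
  have hk1 : 1 ≤ k := by unfold AlmostPerfect at hk; omega
  rcases Nat.lt_or_eq_of_le hk1 with hk2 | hk2
  swap
  · refine ⟨6, by norm_num, ?_⟩
    have h1 : Admissible 6 1 := ⟨le_rfl, by decide, by decide⟩
    have h2 := a_le h1
    have h3 := (a_admissible (n := 6) (by norm_num)).1
    omega
  obtain ⟨n, hn, hcop, h1, h2⟩ := exists_window (k := k) hk2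
  refine ⟨n, hn, le_antisymm ?_ ?_⟩
  · apply a_le
    unfold AlmostPerfect at hk
    refine ⟨hk1, by omega, ?_⟩
    rw [sig_mul_of_coprime hcop.symm]
    have : sig k = 2 * k - 1 := by omega
    rw [this]
    calc 2 * (k * n) = 2 * k * n := by ring
      _ ≤ _ := h1
  · by_contra hlt
    rw [not_le] at hlt
    obtain ⟨hK1, hK2, hK3⟩ := a_admissible hn
    set K := a n
    have hsub := sig_mul_le K n
    have hsn : 0 < sig n := sig_pos (by omega)
    -- 2 K n ≤ (2K-1) σ n
    have h3 : 2 * K * n ≤ (2 * K - 1) * sig n := by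
      calc 2 * K * n = 2 * (K * n) := by ring
        _ ≤ sig K * sig n := hK3.trans hsub
        _ ≤ (2 * K - 1) * sig n := Nat.mul_le_mul_right _ (by omega)
    obtain ⟨c, hc⟩ : ∃ c, k = K + 1 + c := ⟨k - (K + 1), by omega⟩
    obtain ⟨e, he⟩ : ∃ e, K = e + 1 := ⟨K - 1, by omega⟩
    rw [he] at hc h3
    rw [hc] at h2
    have e1 : 2 * (e + 1 + 1 + c) - 3 = 2 * e + 2 * c + 1 := by omega
    have e2 : 2 * (e + 1 + 1 + c) - 2 = 2 * e + 2 * c + 2 := by omega
    have e3 : 2 * (e + 1) - 1 = 2 * e + 1 := by omega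
    rw [e1, e2] at h2
    rw [e3] at h3
    -- h2 : (2e+2c+1) S < (2e+2c+2) n ; h3 : 2(e+1) n ≤ (2e+1) S
    have h4 : n < sig n := by
      have := succ_le_sig hn
      omega
    nlinarith

/-- The set of values of `a` on the integers `n ≥ 2` is `{3}` together with the set of all
almost perfect numbers. -/
theorem result : {k | ∃ n, 2 ≤ n ∧ a n = k} = {3} ∪ {k | AlmostPerfect k} := by
  ext k
  simp only [Set.mem_ofPred_eq, Set.mem_union, Set.mem_singleton_iff]
  constructor
  · rintro ⟨n, hn, rfl⟩
    exact a_eq_three_or_almostPerfect hn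
  · rintro (rfl | hk)
    · refine ⟨2, le_rfl, ?_⟩
      have h3 : a 2 ≤ 3 := a_le (admissible_three le_rfl (dvd_refl 2))
      obtain ⟨h1, h2, h4⟩ := a_admissible (n := 2) le_rfl
      have h : a 2 = 1 ∨ a 2 = 2 ∨ a 2 = 3 := by omega
      rcases h with h | h | h
      · rw [h] at h4
        exact absurd h4 (by decide)
      · rw [h] at h4
        exact absurd h4 (by decide)
      · exact h
    · exact exists_a_eq hk

end Pool.Agent.Results.MP_c5ead3_nt.ImageIsAlmostPerfect
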