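import Mathlib

/-!
# The exact value of `a n` for odd `n` (MP_c5ead3_nt)

For odd `n ≥ 3` the least deficient `k` for which `k * n` is non-deficient is the least almost
perfect number `k` with `σ n ≤ 2 k (σ n - n)`.
-/

namespace Pool.Agent.Results.MP_c5ead3_nt.ExactValue

open Finset

/-- The sum of the positive divisors of `m`. -/
def sig (m : ℕ) : ℕ := ∑ d ∈ m.divisors, d

/-- `k` is positive and deficient, and `k * n` is non-deficient. -/
def Admissible (n k : ℕ) : Prop :=
  1 ≤ k ∧ sig k < 2 * k ∧ 2 * (k * n) ≤ sig (k * n)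

/-- The least deficient positive integer `k` for which `k * n` is non-deficient. -/
noncomputable def a (n : ℕ) : ℕ := sInf {k | Admissible n k}

/-- `k` is almost perfect: `σ k = 2 k - 1`. -/
def AlmostPerfect (k : ℕ) : Prop := sig k + 1 = 2 * k

lemma sig_eq (m : ℕ) : sig m = ArithmeticFunction.sigma 1 m := by
  rw [ArithmeticFunction.sigma_one_apply]; rfl

lemma sig_mul_of_coprime {m n : ℕ} (h : m.Coprime n) : sig (m * n) = sig m * sig n := by
  rw [sig_eq, sig_eq, sig_eq]
  exact ArithmeticFunction.isMultiplicative_sigma.map_mul_of_coprime h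

lemma sig_mul_le (m n : ℕ) : sig (m * n) ≤ sig m * sig n := by
  classical
  unfold sig
  rw [Nat.divisors_mul, Finset.sum_mul_sum, ← Finset.sum_product']
  rw [Finset.mul_def, ]
  exact Finset.sum_image_le_of_nonneg (fun _ _ => Nat.zero_le _)

lemma sig_pos {m : ℕ} (hm : 0 < m) : 0 < sig m := by
  unfold sig
  exact Finset.sum_pos' (fun _ _ => Nat.zero_le _) ⟨1, by simp [hm.ne'], by norm_num⟩

lemma sig_two_pow (j : ℕ) : sig (2 ^ j) + 1 = 2 ^ (j + 1) := by
  unfold sig
  rw [Nat.sum_divisors_prime_pow Nat.prime_two]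
  have := Nat.geomSum_eq (le_refl 2) (j + 1)
  have h2 : 1 ≤ 2 ^ (j + 1) := Nat.one_le_two_pow
  simp at this
  omega

lemma succ_le_sig {n : ℕ} (hn : 2 ≤ n) : n + 1 ≤ sig n := by
  unfold sig
  have h1 : ({1, n} : Finset ℕ) ⊆ n.divisors := by
    intro x hx
    simp only [Finset.mem_insert, Finset.mem_singleton] at hx
    rcases hx with rfl | rfl
    · simp; omega
    · simp; omega
  calc n + 1 = ∑ d ∈ ({1, n} : Finset ℕ), d := by
        rw [Finset.sum_pair (by omega)]; ring
    _ ≤ _ := Finset.sum_le_sum_of_subset h1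

/-- For a prime `p ∣ n` the divisors `n` and `n / p` give `σ n ≥ n + n / p`. -/
lemma add_le_sig {p m : ℕ} (hp : p.Prime) (hm : 0 < m) : p * m + m ≤ sig (p * m) := by
  unfold sig
  have h2 := hp.two_le
  have hlt : m < p * m := by nlinarith
  have h1 : ({p * m, m} : Finset ℕ) ⊆ (p * m).divisors := by
    intro x hx
    simp only [Finset.mem_insert, Finset.mem_singleton] at hx
    rw [Nat.mem_divisors]
    refine ⟨?_, by omega⟩
    rcases hx with rfl | rfl
    · exact dvd_refl _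
    · exact ⟨p, by ring⟩
  calc p * m + m = ∑ d ∈ ({p * m, m} : Finset ℕ), d := by
        rw [Finset.sum_pair (by omega)]
    _ ≤ _ := Finset.sum_le_sum_of_subset h1

lemma admissible_two_pow_iff {n j : ℕ} (hodd : ¬ 2 ∣ n) :
    Admissible n (2 ^ j) ↔ 2 ^ (j + 1) * n ≤ (2 ^ (j + 1) - 1) * sig n := by
  have hcop : (2 ^ j).Coprime n := by
    apply Nat.Coprime.pow_left
    exact (Nat.Prime.coprime_iff_not_dvd Nat.prime_two).2 hodd
  have hs := sig_two_pow j
  have hs' : sig (2 ^ j) = 2 ^ (j + 1) - 1 := by omega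
  have hp : 2 ^ (j + 1) = 2 * 2 ^ j := by ring
  have h1 : 1 ≤ 2 ^ j := Nat.one_le_two_pow
  unfold Admissible
  rw [sig_mul_of_coprime hcop, hs']
  constructor
  · rintro ⟨_, _, h⟩
    calc 2 ^ (j + 1) * n = 2 * (2 ^ j * n) := by ring
      _ ≤ _ := h
  · intro h
    refine ⟨h1, by omega, ?_⟩
    calc 2 * (2 ^ j * n) = 2 ^ (j + 1) * n := by ring
      _ ≤ _ := h

lemma exists_two_pow_admissible {n : ℕ} (hn : 2 ≤ n) (hodd : ¬ 2 ∣ n) :
    ∃ j, Admissible n (2 ^ j) := by
  refine ⟨n, (admissible_two_pow_iff hodd).2 ?_⟩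
  have h1 : n + 1 ≤ 2 ^ (n + 1) := by
    have := Nat.lt_two_pow_self (n := n + 1)
    omega
  have h2 := succ_le_sig hn
  obtain ⟨P, hP⟩ : ∃ P, 2 ^ (n + 1) = P + 1 := ⟨2 ^ (n + 1) - 1, by omega⟩
  rw [hP] at h1 ⊢
  simp only [Nat.add_sub_cancel]
  calc (P + 1) * n = P * n + n := by ring
    _ ≤ P * n + P := by omega
    _ = P * (n + 1) := by ring
    _ ≤ P * sig n := Nat.mul_le_mul_left _ h2

lemma a_admissible {n : ℕ} (hn : 2 ≤ n) (hodd : ¬ 2 ∣ n) : Admissible n (a n) := by
  obtain ⟨j, hj⟩ := exists_two_pow_admissible hn hodd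
  exact Nat.sInf_mem (s := {k | Admissible n k}) ⟨_, hj⟩

lemma a_le {n k : ℕ} (h : Admissible n k) : a n ≤ k := Nat.sInf_le h

/-- For odd `n` the value `a n` is almost perfect. -/
theorem almostPerfect_a {n : ℕ} (hn : 2 ≤ n) (heven : ¬ 2 ∣ n) : AlmostPerfect (a n) := by
  obtain ⟨hK1, hK2, hK3⟩ := a_admissible hn heven
  set K := a n with hK
  classical
  have hex := exists_two_pow_admissible hn heven
  set j := Nat.find hex with hj
  have hjA : Admissible n (2 ^ j) := Nat.find_spec hex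
  have hKj : K ≤ 2 ^ j := a_le hjA
  rcases Nat.lt_or_eq_of_le hKj with hlt | heq
  swap
  · rw [heq]
    unfold AlmostPerfect
    rw [sig_two_pow]; ring
  rcases Nat.eq_zero_or_pos j with hj0 | hjpos
  · rw [hj0] at hlt
    simp at hlt
    omega
  obtain ⟨i, hi⟩ : ∃ i, j = i + 1 := ⟨j - 1, by omega⟩
  have hnot : ¬ Admissible n (2 ^ i) := Nat.find_min hex (by omega)
  rw [admissible_two_pow_iff heven, not_le] at hnot
  rw [hi] at hlt
  obtain ⟨P, hP⟩ : ∃ P, 2 ^ (i + 1) = P + 1 := ⟨2 ^ (i + 1) - 1, by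
    have : 1 ≤ 2 ^ (i + 1) := Nat.one_le_two_pow
    omega⟩
  rw [hP] at hnot hlt
  simp only [Nat.add_sub_cancel] at hnot
  have hsub := sig_mul_le K n
  have hsK : 0 < sig K := sig_pos hK1
  have h1 : 2 * K * n * P < sig K * (P + 1) * n := by
    calc 2 * K * n * P = (2 * (K * n)) * P := by ring
      _ ≤ (sig K * sig n) * P := Nat.mul_le_mul_right _ (hK3.trans hsub)
      _ = sig K * (P * sig n) := by ring
      _ < sig K * ((P + 1) * n) := Nat.mul_lt_mul_of_pos_left hnot hsK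
      _ = sig K * (P + 1) * n := by ring
  have h2 : 2 * K * P < sig K * (P + 1) := by
    have : (2 * K * P) * n < (sig K * (P + 1)) * n := by
      calc (2 * K * P) * n = 2 * K * n * P := by ring
        _ < _ := h1
    exact lt_of_mul_lt_mul_right this (Nat.zero_le _)
  unfold AlmostPerfect
  by_contra hne
  have h3 : sig K + 2 ≤ 2 * K := by omega
  have h4 : (sig K + 2) * (P + 1) ≤ 2 * K * (P + 1) := Nat.mul_le_mul_right _ h3
  nlinarith

/-- Every prime factor of an odd `n` exceeds every positive `k < a n`. -/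
theorem lt_prime_of_lt_a {n k p : ℕ} (hn : 2 ≤ n) (hodd : ¬ 2 ∣ n) (hk : 1 ≤ k) (hka : k < a n)
    (hp : p.Prime) (hpn : p ∣ n) : k < p := by
  obtain ⟨m, rfl⟩ := hpn
  have hm : 0 < m := by
    rcases Nat.eq_zero_or_pos m with h | h
    · subst h; omega
    · exact h
  set i := Nat.log 2 k with hi
  have hi1 : 2 ^ i ≤ k := Nat.pow_log_le_self 2 (by omega)
  have hi2 : k < 2 ^ (i + 1) := Nat.lt_pow_succ_log_self (by norm_num) k
  have hnot : ¬ Admissible (p * m) (2 ^ i) := by
    intro h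
    have := a_le h
    omega
  rw [admissible_two_pow_iff hodd, not_le] at hnot
  obtain ⟨P, hP⟩ : ∃ P, 2 ^ (i + 1) = P + 1 := ⟨2 ^ (i + 1) - 1, by
    have : 1 ≤ 2 ^ (i + 1) := Nat.one_le_two_pow
    omega⟩
  rw [hP] at hnot hi2
  simp only [Nat.add_sub_cancel] at hnot
  have h1 := add_le_sig hp hm
  have h2 : P * (p * m + m) < (P + 1) * (p * m) :=
    lt_of_le_of_lt (Nat.mul_le_mul_left _ h1) hnot
  have h3 : P * m < p * m := by nlinarith
  have h4 : P < p := lt_of_mul_lt_mul_right h3 (Nat.zero_le _)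
  omega

/-- For odd `n ≥ 3`, `a n` is the least almost perfect `k` with `σ n ≤ 2 k (σ n - n)`. -/
theorem result : ∀ n : ℕ, 3 ≤ n → Odd n →
    IsLeast {k | AlmostPerfect k ∧ sig n ≤ 2 * k * (sig n - n)} (a n) := by
  intro n hn hodd
  have hn2 : 2 ≤ n := by omega
  have h2n : ¬ 2 ∣ n := by
    obtain ⟨t, ht⟩ := hodd
    omega
  have hAP := almostPerfect_a hn2 h2n
  obtain ⟨hK1, hK2, hK3⟩ := a_admissible hn2 h2n
  have hs := succ_le_sig hn2
  obtain ⟨e, he⟩ : ∃ e, sig n = n + e := ⟨sig n - n, by omega⟩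
  have he' : sig n - n = e := by omega
  constructor
  · refine ⟨hAP, ?_⟩
    have h1 := hK3.trans (sig_mul_le (a n) n)
    unfold AlmostPerfect at hAP
    have h2 : sig (a n) = 2 * a n - 1 := by omega
    rw [he']
    obtain ⟨c, hc⟩ : ∃ c, a n = c + 1 := ⟨a n - 1, by omega⟩
    rw [hc] at h1 h2 ⊢
    have h3 : 2 * (c + 1) - 1 = 2 * c + 1 := by omega
    rw [h2, h3, he] at h1
    rw [he]
    nlinarith
  · rintro k ⟨hk1, hk2⟩
    by_contra hlt
    rw [not_le] at hlt
    unfold AlmostPerfect at hk1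
    have hk0 : 1 ≤ k := by omega
    have hcop : k.Coprime n := by
      rw [Nat.coprime_iff_gcd_eq_one]
      by_contra hg
      obtain ⟨q, hq, hqg⟩ := Nat.exists_prime_and_dvd hg
      have h1 : q ∣ k := hqg.trans (Nat.gcd_dvd_left _ _)
      have h2 : q ∣ n := hqg.trans (Nat.gcd_dvd_right _ _)
      have h3 := lt_prime_of_lt_a hn2 h2n hk0 hlt hq h2
      have h4 := Nat.le_of_dvd (by omega) h1
      omega
    have hadm : Admissible n k := by
      refine ⟨hk0, by omega, ?_⟩
      rw [sig_mul_of_coprime hcop]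
      obtain ⟨c, hc⟩ : ∃ c, k = c + 1 := ⟨k - 1, by omega⟩
      have h2 : sig k = 2 * c + 1 := by omega
      rw [he'] at hk2
      rw [h2, he]
      rw [hc, he] at hk2
      rw [hc]
      nlinarith
    have := a_le hadm
    omega

end Pool.Agent.Results.MP_c5ead3_nt.ExactValue
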