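import Mathlib

/-!
# Every value of `a` has positive lower density (MP_c5ead3_nt)

If `m` is `1` modulo a large factorial, then all prime factors of `m` are large, and for at least
half of these `m` the quotient `σ m / m` is so near to `1` that `a (n₀ * m) = a n₀`.
-/

namespace Pool.Agent.Results.MP_c5ead3_nt.PositiveDensity

open Finset

/-- The sum of the positive divisors of `m`. -/
def sig (m : ℕ) : ℕ := ∑ d ∈ m.divisors, d

/-- `k` is positive and deficient, and `k * n` is non-deficient. -/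
def Admissible (n k : ℕ) : Prop :=
  1 ≤ k ∧ sig k < 2 * k ∧ 2 * (k * n) ≤ sig (k * n)

/-- The least deficient positive integer `k` for which `k * n` is non-deficient. -/
noncomputable def a (n : ℕ) : ℕ := sInf {k | Admissible n k}

lemma sig_eq (m : ℕ) : sig m = ArithmeticFunction.sigma 1 m := by
  rw [ArithmeticFunction.sigma_one_apply]; rfl

lemma sig_mul_of_coprime {m n : ℕ} (h : m.Coprime n) : sig (m * n) = sig m * sig n := by
  rw [sig_eq, sig_eq, sig_eq]
  exact ArithmeticFunction.isMultiplicative_sigma.map_mul_of_coprime h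

lemma sig_two_pow (j : ℕ) : sig (2 ^ j) + 1 = 2 ^ (j + 1) := by
  unfold sig
  rw [Nat.sum_divisors_prime_pow Nat.prime_two]
  have := Nat.geomSum_eq (le_refl 2) (j + 1)
  have h2 : 1 ≤ 2 ^ (j + 1) := Nat.one_le_two_pow
  simp at this
  omega

lemma succ_le_sig {n : ℕ} (hn : 2 ≤ n) : n + 1 ≤ sig n := by
  unfold sig
  have h1 : ({1, n} : Finset ℕ) ⊆ n.divisors := by
    intro x hx
    simp only [Finset.mem_insert, Finset.mem_singleton] at hx
    rcases hx with rfl | rfl
    · simp; omega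
    · simp; omega
  calc n + 1 = ∑ d ∈ ({1, n} : Finset ℕ), d := by
        rw [Finset.sum_pair (by omega)]; ring
    _ ≤ _ := Finset.sum_le_sum_of_subset h1

/-- Every multiple of `6` is non-deficient. -/
lemma two_mul_le_sig_of_six_dvd {m : ℕ} (hm : 0 < m) (h6 : 6 ∣ m) : 2 * m ≤ sig m := by
  obtain ⟨t, rfl⟩ := h6
  unfold sig
  have ht : 0 < t := by omega
  have h1 : ({6 * t, 3 * t, 2 * t, t} : Finset ℕ) ⊆ (6 * t).divisors := by
    intro x hx
    simp only [Finset.mem_insert, Finset.mem_singleton] at hx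
    rw [Nat.mem_divisors]
    refine ⟨?_, by omega⟩
    rcases hx with rfl | rfl | rfl | rfl
    · exact dvd_refl _
    · exact ⟨2, by ring⟩
    · exact ⟨3, by ring⟩
    · exact ⟨6, by ring⟩
  calc 2 * (6 * t) = ∑ d ∈ ({6 * t, 3 * t, 2 * t, t} : Finset ℕ), d := by
        rw [Finset.sum_insert (by simp only [Finset.mem_insert, Finset.mem_singleton]; omega),
          Finset.sum_insert (by simp only [Finset.mem_insert, Finset.mem_singleton]; omega),
          Finset.sum_pair (by omega)]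
        ring
    _ ≤ _ := Finset.sum_le_sum_of_subset h1

lemma admissible_three {n : ℕ} (hn : 2 ≤ n) (h : 2 ∣ n) : Admissible n 3 := by
  refine ⟨by norm_num, by decide, ?_⟩
  apply two_mul_le_sig_of_six_dvd (by omega)
  obtain ⟨t, rfl⟩ := h
  exact ⟨t, by ring⟩

lemma admissible_two_pow_iff {n j : ℕ} (hodd : ¬ 2 ∣ n) :
    Admissible n (2 ^ j) ↔ 2 ^ (j + 1) * n ≤ (2 ^ (j + 1) - 1) * sig n := by
  have hcop : (2 ^ j).Coprime n := by
    apply Nat.Coprime.pow_left
    exact (Nat.Prime.coprime_iff_not_dvd Nat.prime_two).2 hodd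
  have hs := sig_two_pow j
  have hs' : sig (2 ^ j) = 2 ^ (j + 1) - 1 := by omega
  have hp : 2 ^ (j + 1) = 2 * 2 ^ j := by ring
  have h1 : 1 ≤ 2 ^ j := Nat.one_le_two_pow
  unfold Admissible
  rw [sig_mul_of_coprime hcop, hs']
  constructor
  · rintro ⟨_, _, h⟩
    calc 2 ^ (j + 1) * n = 2 * (2 ^ j * n) := by ring
      _ ≤ _ := h
  · intro h
    refine ⟨h1, by omega, ?_⟩
    calc 2 * (2 ^ j * n) = 2 ^ (j + 1) * n := by ring
      _ ≤ _ := h

lemma exists_two_pow_admissible {n : ℕ} (hn : 2 ≤ n) (hodd : ¬ 2 ∣ n) :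
    ∃ j, Admissible n (2 ^ j) := by
  refine ⟨n, (admissible_two_pow_iff hodd).2 ?_⟩
  have h1 : n + 1 ≤ 2 ^ (n + 1) := by
    have := Nat.lt_two_pow_self (n := n + 1)
    omega
  have h2 := succ_le_sig hn
  obtain ⟨P, hP⟩ : ∃ P, 2 ^ (n + 1) = P + 1 := ⟨2 ^ (n + 1) - 1, by omega⟩
  rw [hP] at h1 ⊢
  simp only [Nat.add_sub_cancel]
  calc (P + 1) * n = P * n + n := by ring
    _ ≤ P * n + P := by omega
    _ = P * (n + 1) := by ring
    _ ≤ P * sig n := Nat.mul_le_mul_left _ h2

lemma admissible_nonempty {n : ℕ} (hn : 2 ≤ n) : {k | Admissible n k}.Nonempty := by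
  by_cases h : 2 ∣ n
  · exact ⟨3, admissible_three hn h⟩
  · obtain ⟨j, hj⟩ := exists_two_pow_admissible hn h
    exact ⟨_, hj⟩

lemma a_admissible {n : ℕ} (hn : 2 ≤ n) : Admissible n (a n) :=
  Nat.sInf_mem (admissible_nonempty hn)

lemma a_le {n k : ℕ} (h : Admissible n k) : a n ≤ k := Nat.sInf_le h


lemma le_sig {n : ℕ} (hn : 0 < n) : n ≤ sig n := by
  unfold sig
  exact Finset.single_le_sum (f := fun d => d) (fun _ _ => Nat.zero_le _)
    (Nat.mem_divisors_self n hn.ne')

/-- The value of `a` does not change if `n₀` is multiplied by a suitable `m` with `σ m / m` near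
to `1`. -/
theorem a_mul_eq {n₀ m : ℕ} (hn : 2 ≤ n₀) (hm : 0 < m) (hcn : n₀.Coprime m)
    (hck : ∀ j, 1 ≤ j → j ≤ a n₀ → j.Coprime m)
    (hs : 2 * a n₀ * n₀ * sig m < (2 * a n₀ * n₀ + 1) * m) : a (n₀ * m) = a n₀ := by
  have hA := a_admissible hn
  have hms := le_sig hm
  have hnm : 2 ≤ n₀ * m := by nlinarith
  apply le_antisymm
  · apply a_le
    refine ⟨hA.1, hA.2.1, ?_⟩
    have h1 : a n₀ * (n₀ * m) = a n₀ * n₀ * m := by ring
    have h2 : (a n₀ * n₀).Coprime m := Nat.Coprime.mul_left (hck _ hA.1 le_rfl) hcn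
    rw [h1, sig_mul_of_coprime h2]
    calc 2 * (a n₀ * n₀ * m) = 2 * (a n₀ * n₀) * m := by ring
      _ ≤ sig (a n₀ * n₀) * sig m := Nat.mul_le_mul hA.2.2 hms
  · by_contra hlt
    rw [not_le] at hlt
    obtain ⟨hj1, hj2, hj3⟩ := a_admissible hnm
    set j := a (n₀ * m) with hj
    have h1 : j * (n₀ * m) = j * n₀ * m := by ring
    have h2 : (j * n₀).Coprime m := Nat.Coprime.mul_left (hck _ hj1 hlt.le) hcn
    rw [h1, sig_mul_of_coprime h2] at hj3
    have hnot : ¬ Admissible n₀ j := by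
      intro h
      have := a_le h
      omega
    have h4 : sig (j * n₀) < 2 * (j * n₀) := by
      by_contra h
      exact hnot ⟨hj1, hj2, not_lt.1 h⟩
    set s := sig m
    set A := j * n₀
    set K := a n₀
    have hAK : A ≤ K * n₀ := Nat.mul_le_mul_right _ hlt.le
    obtain ⟨e, he⟩ : ∃ e, s = m + e := ⟨s - m, by omega⟩
    have h5 : 2 * (A * m) + s ≤ 2 * A * s := by
      have : (sig A + 1) * s ≤ 2 * A * s := Nat.mul_le_mul_right _ (by omega)
      nlinarith
    rw [he] at h5 hs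
    have h6 : m ≤ 2 * A * e := by nlinarith
    have h7 : 2 * A * e ≤ 2 * (K * n₀) * e := Nat.mul_le_mul_right _ (by omega)
    nlinarith

lemma card_dvd_le (N d T : ℕ) (hd : 0 < d) :
    #{t ∈ range T | d ∣ N * t + 1} ≤ T / d + 1 := by
  have h : #{t ∈ range T | d ∣ N * t + 1} ≤ #(range (T / d + 1)) := by
    apply Finset.card_le_card_of_injOn (fun t => t / d)
    · intro t ht
      simp only [coe_filter, mem_range, Set.mem_ofPred_eq] at ht
      simp only [coe_range, Set.mem_Iio]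
      have := Nat.div_le_div_right (c := d) ht.1.le
      omega
    · intro t ht t' ht' htt
      simp only [coe_filter, mem_range, Set.mem_ofPred_eq] at ht ht'
      simp only at htt
      have hcop : Nat.Coprime d N := by
        by_contra hc
        obtain ⟨q, hq, hqg⟩ := Nat.exists_prime_and_dvd hc
        have h1 : q ∣ d := hqg.trans (Nat.gcd_dvd_left _ _)
        have h2 : q ∣ N := hqg.trans (Nat.gcd_dvd_right _ _)
        have h3 : q ∣ N * t + 1 := h1.trans ht.2
        have h4 : q ∣ 1 := (Nat.dvd_add_right (h2.mul_right t)).1 h3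
        exact hq.one_lt.ne' (Nat.dvd_one.1 h4)
      have hmod : t ≡ t' [MOD d] := by
        have h1 : N * t + 1 ≡ N * t' + 1 [MOD d] :=
          ((Nat.modEq_zero_iff_dvd.2 ht.2).trans (Nat.modEq_zero_iff_dvd.2 ht'.2).symm)
        have h2 : N * t ≡ N * t' [MOD d] := Nat.ModEq.add_right_cancel' 1 h1
        exact Nat.ModEq.cancel_left_of_coprime hcop h2
      have h1 := Nat.div_add_mod t d
      have h2 := Nat.div_add_mod t' d
      unfold Nat.ModEq at hmod
      rw [← h1, ← h2, htt, hmod]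
  simpa using h

lemma sum_inv_le_sqrt (M : ℕ) : ∑ d ∈ Ioc 0 M, (1 : ℝ) / d ≤ 2 * Real.sqrt M := by
  induction M with
  | zero => simp
  | succ M ih =>
    rw [Finset.sum_Ioc_succ_top (Nat.zero_le _)]
    have h1 : (1 : ℝ) / ((M + 1 : ℕ) : ℝ) ≤ 2 * Real.sqrt ((M + 1 : ℕ) : ℝ) - 2 * Real.sqrt M := by
      push_cast
      set x : ℝ := Real.sqrt M
      set z : ℝ := Real.sqrt ((M : ℝ) + 1)
      have hM : (0 : ℝ) ≤ M := Nat.cast_nonneg M
      have hx : 0 ≤ x := Real.sqrt_nonneg _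
      have hz : 1 ≤ z := Real.one_le_sqrt.2 (by linarith)
      have hx2 : x ^ 2 = M := Real.sq_sqrt hM
      have hz2 : z ^ 2 = (M : ℝ) + 1 := Real.sq_sqrt (by linarith)
      have hxz : x ≤ z := Real.sqrt_le_sqrt (by linarith)
      rw [← hz2, div_le_iff₀ (by positivity)]
      have h3 : (z - x) * (z + x) = 1 := by nlinarith
      have h4 : 1 ≤ (z - x) * (2 * z) := by nlinarith
      nlinarith
    linarith

lemma sig_div_eq {m : ℕ} (hm : 0 < m) : (sig m : ℝ) / m = ∑ d ∈ m.divisors, (1 : ℝ) / d := by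
  have h1 : sig m = ∑ d ∈ m.divisors, m / d := by
    unfold sig
    exact (Nat.sum_div_divisors m (fun d => d)).symm
  rw [h1]
  push_cast
  rw [Finset.sum_div]
  apply Finset.sum_congr rfl
  intro d hd
  have hdm := Nat.dvd_of_mem_divisors hd
  have hd0 : (d : ℝ) ≠ 0 := by
    have := Nat.pos_of_mem_divisors hd
    positivity
  have hm0 : (m : ℝ) ≠ 0 := by positivity
  rw [Nat.cast_div hdm hd0]
  field_simp

/-- For at least half of the `m = N t + 1` the quotient `σ m / m` is below `1 + 1 / L`. -/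
theorem exists_good (L M : ℕ) (hL : 0 < L) (hM : 0 < M) : ∃ N, 0 < N ∧ M ∣ N ∧ ∃ T₀ : ℕ,
    ∀ T, T₀ ≤ T → T ≤ 2 * #{t ∈ range T | L * sig (N * t + 1) < (L + 1) * (N * t + 1)} := by
  classical
  set y := 4 * L with hy
  set N := M * y.factorial with hN
  have hy0 : 0 < y := by omega
  have hN0 : 0 < N := Nat.mul_pos hM (Nat.factorial_pos _)
  refine ⟨N, hN0, Dvd.intro _ rfl, 64 * L ^ 2 * N, ?_⟩
  intro T hT
  have hT0 : 0 < T := lt_of_lt_of_le (by positivity) hT
  set B := {t ∈ range T | ¬ L * sig (N * t + 1) < (L + 1) * (N * t + 1)} with hB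
  have hsplit : #{t ∈ range T | L * sig (N * t + 1) < (L + 1) * (N * t + 1)} + #B = T := by
    have := Finset.card_filter_add_card_filter_not (s := range T)
      (fun t => L * sig (N * t + 1) < (L + 1) * (N * t + 1))
    rw [card_range] at this
    exact this
  -- the sum over large divisors
  have hLr : (0 : ℝ) < L := by exact_mod_cast hL
  have hTr : (0 : ℝ) < T := by exact_mod_cast hT0
  have key : ∀ t ∈ B, (1 : ℝ) / L ≤ ∑ d ∈ Ioc y (N * T), if d ∣ N * t + 1 then (1 : ℝ) / d else 0 := by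
    intro t ht
    rw [hB, mem_filter, mem_range, not_lt] at ht
    obtain ⟨htT, hbad⟩ := ht
    set m := N * t + 1 with hm
    have hm0 : 0 < m := by omega
    have hmr : (0 : ℝ) < m := by exact_mod_cast hm0
    have h1 := sig_div_eq hm0
    have h2 : 1 + (1 : ℝ) / L ≤ (sig m : ℝ) / m := by
      rw [le_div_iff₀ hmr]
      have h3 : ((L : ℝ) + 1) * m ≤ L * sig m := by exact_mod_cast hbad
      have h4 : (1 + (1 : ℝ) / L) * m = ((L : ℝ) + 1) * m / L := by field_simp
      rw [h4, div_le_iff₀ hLr]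
      linarith
    have hsub : m.divisors ⊆ insert 1 ((Ioc y (N * T)).filter (fun d => d ∣ m)) := by
      intro d hd
      have hdm := Nat.dvd_of_mem_divisors hd
      have hd0 := Nat.pos_of_mem_divisors hd
      rw [mem_insert, mem_filter, mem_Ioc]
      by_cases hd1 : d = 1
      · left; exact hd1
      · right
        refine ⟨⟨?_, ?_⟩, hdm⟩
        · by_contra hle
          rw [not_lt] at hle
          have h5 : d ∣ N := (Nat.dvd_factorial hd0 hle).trans (Dvd.intro_left _ rfl)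
          have h6 : d ∣ 1 := (Nat.dvd_add_right (h5.mul_right t)).1 hdm
          exact hd1 (Nat.dvd_one.1 h6)
        · have h5 := Nat.le_of_dvd hm0 hdm
          have h6 : N * t + 1 ≤ N * (t + 1) := by nlinarith
          have h7 : N * (t + 1) ≤ N * T := Nat.mul_le_mul_left _ htT
          omega
    have h3 : ∑ d ∈ m.divisors, (1 : ℝ) / d
        ≤ ∑ d ∈ insert 1 ((Ioc y (N * T)).filter (fun d => d ∣ m)), (1 : ℝ) / d :=
      Finset.sum_le_sum_of_subset_of_nonneg hsub (fun _ _ _ => by positivity)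
    rw [Finset.sum_insert (by
      rw [mem_filter, mem_Ioc]
      intro h
      omega)] at h3
    rw [Finset.sum_filter] at h3
    rw [h1] at h2
    simp only [Nat.cast_one, div_one] at h3
    linarith
  have h1 : (#B : ℝ) * (1 / L)
      ≤ ∑ t ∈ B, ∑ d ∈ Ioc y (N * T), if d ∣ N * t + 1 then (1 : ℝ) / d else 0 := by
    rw [← nsmul_eq_mul]
    exact Finset.card_nsmul_le_sum _ _ _ key
  have h2 : ∑ t ∈ B, ∑ d ∈ Ioc y (N * T), (if d ∣ N * t + 1 then (1 : ℝ) / d else 0)
      ≤ ∑ t ∈ range T, ∑ d ∈ Ioc y (N * T), if d ∣ N * t + 1 then (1 : ℝ) / d else 0 := by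
    apply Finset.sum_le_sum_of_subset_of_nonneg (filter_subset _ _)
    intro t _ _
    apply Finset.sum_nonneg
    intro d _
    split_ifs <;> positivity
  have h3 : ∑ t ∈ range T, ∑ d ∈ Ioc y (N * T), (if d ∣ N * t + 1 then (1 : ℝ) / d else 0)
      ≤ ∑ d ∈ Ioc y (N * T), ((T : ℝ) * ((d : ℝ) ^ 2)⁻¹ + 1 / d) := by
    rw [Finset.sum_comm]
    apply Finset.sum_le_sum
    intro d hd
    rw [mem_Ioc] at hd
    have hd0 : 0 < d := by omega
    have hdr : (0 : ℝ) < d := by exact_mod_cast hd0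
    rw [← Finset.sum_filter, Finset.sum_const, nsmul_eq_mul]
    have h4 := card_dvd_le N d T hd0
    have h5 : ((#{t ∈ range T | d ∣ N * t + 1} : ℕ) : ℝ) ≤ (T : ℝ) / d + 1 := by
      calc ((#{t ∈ range T | d ∣ N * t + 1} : ℕ) : ℝ) ≤ ((T / d + 1 : ℕ) : ℝ) := by exact_mod_cast h4
        _ = ((T / d : ℕ) : ℝ) + 1 := by push_cast; ring
        _ ≤ (T : ℝ) / d + 1 := by
          have := @Nat.cast_div_le ℝ _ _ _ T d
          linarith
    calc ((#{t ∈ range T | d ∣ N * t + 1} : ℕ) : ℝ) * (1 / d) ≤ ((T : ℝ) / d + 1) * (1 / d) :=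
          mul_le_mul_of_nonneg_right h5 (by positivity)
      _ = (T : ℝ) * ((d : ℝ) ^ 2)⁻¹ + 1 / d := by field_simp
  have h4 : ∑ d ∈ Ioc y (N * T), ((T : ℝ) * ((d : ℝ) ^ 2)⁻¹ + 1 / d)
      ≤ T * (1 / y) + 2 * Real.sqrt ((N * T : ℕ) : ℝ) := by
    rw [Finset.sum_add_distrib, ← Finset.mul_sum]
    have hyN : y ≤ N * T := by
      have h5 : y ≤ N := by
        have := Nat.self_le_factorial y
        have h6 : y.factorial ≤ N := Nat.le_mul_of_pos_left _ hM
        omega
      nlinarith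
    have h5 : ∑ d ∈ Ioc y (N * T), (((d : ℝ)) ^ 2)⁻¹ ≤ 1 / y := by
      have := sum_Ioc_inv_sq_le_sub (α := ℝ) (k := y) (n := N * T) (by omega) hyN
      have h6 : (0 : ℝ) ≤ (((N * T : ℕ) : ℝ))⁻¹ := by positivity
      rw [one_div]
      linarith
    have h6 : ∑ d ∈ Ioc y (N * T), (1 : ℝ) / d ≤ ∑ d ∈ Ioc 0 (N * T), (1 : ℝ) / d := by
      apply Finset.sum_le_sum_of_subset_of_nonneg
      · exact Finset.Ioc_subset_Ioc_left (Nat.zero_le _)
      · intro _ _ _; positivity
    have h7 := sum_inv_le_sqrt (N * T)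
    have h8 := mul_le_mul_of_nonneg_left h5 hTr.le
    linarith
  have h5 : Real.sqrt ((N * T : ℕ) : ℝ) ≤ T / (8 * L) := by
    apply Real.sqrt_le_iff.2
    refine ⟨by positivity, ?_⟩
    rw [div_pow, le_div_iff₀ (by positivity)]
    have h6 : ((64 * L ^ 2 * N : ℕ) : ℝ) ≤ T := by exact_mod_cast hT
    push_cast at h6 ⊢
    nlinarith
  have h6 : (#B : ℝ) * (1 / L) ≤ T * (1 / y) + 2 * (T / (8 * L)) := by linarith
  have h7 : (T : ℝ) * (1 / y) + 2 * (T / (8 * L)) = (T / 2) * (1 / L) := by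
    rw [hy]
    push_cast
    field_simp
    ring
  rw [h7] at h6
  have h8 : (#B : ℝ) ≤ T / 2 := le_of_mul_le_mul_right h6 (by positivity)
  have h9 : 2 * #B ≤ T := by
    have : 2 * (#B : ℝ) ≤ T := by linarith
    exact_mod_cast this
  omega

/-- Every value of `a` is taken on a set of positive lower density. -/
theorem result : ∀ n₀ : ℕ, 2 ≤ n₀ → ∃ c : ℝ, 0 < c ∧ ∃ x₀ : ℕ, ∀ x : ℕ, x₀ ≤ x →
    c * x ≤ #{n ∈ Icc 2 x | a n = a n₀} := by
  classical
  intro n₀ hn
  have hA := a_admissible hn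
  set k := a n₀ with hk
  obtain ⟨N, hN, hMN, T₀, hT⟩ := exists_good (2 * k * n₀) (n₀ * k.factorial)
    (by have := hA.1; positivity) (Nat.mul_pos (by omega) (Nat.factorial_pos _))
  refine ⟨1 / (4 * (n₀ * N : ℕ)), by positivity, (T₀ + 2) * (n₀ * N), ?_⟩
  intro x hx
  have hnN : 0 < n₀ * N := Nat.mul_pos (by omega) hN
  set T := x / (n₀ * N) with hTdef
  have hT1 : T₀ + 2 ≤ T := (Nat.le_div_iff_mul_le hnN).2 hx
  have hgood := hT T (by omega)
  set S := {t ∈ range T | 2 * k * n₀ * sig (N * t + 1) < (2 * k * n₀ + 1) * (N * t + 1)} with hS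
  have hinj : #S ≤ #{n ∈ Icc 2 x | a n = k} := by
    apply Finset.card_le_card_of_injOn (fun t => n₀ * (N * t + 1))
    · intro t ht
      simp only [hS, coe_filter, mem_range, Set.mem_ofPred_eq] at ht
      simp only [coe_filter, mem_Icc, Set.mem_ofPred_eq]
      have hcop : ∀ j, j ∣ N → j.Coprime (N * t + 1) := by
        intro j hj
        have h1 : N.Coprime (N * t + 1) := by
          have h0 : Nat.gcd N (N * t + 1) ∣ 1 :=
            (Nat.dvd_add_right ((Nat.gcd_dvd_left N (N * t + 1)).mul_right t)).1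
              (Nat.gcd_dvd_right N (N * t + 1))
          exact Nat.dvd_one.1 h0
        exact Nat.Coprime.coprime_dvd_left hj h1
      refine ⟨⟨by nlinarith, ?_⟩, ?_⟩
      · have h1 : N * t + 1 ≤ N * (t + 1) := by nlinarith
        have h2 : N * (t + 1) ≤ N * T := Nat.mul_le_mul_left _ ht.1
        have h3 : n₀ * (N * t + 1) ≤ n₀ * (N * T) := Nat.mul_le_mul_left _ (h1.trans h2)
        have h4 : T * (n₀ * N) ≤ x := Nat.div_mul_le_self _ _
        calc n₀ * (N * t + 1) ≤ n₀ * (N * T) := h3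
          _ = T * (n₀ * N) := by ring
          _ ≤ x := h4
      · apply a_mul_eq hn (by omega)
        · exact hcop _ ((Dvd.intro _ rfl).trans hMN)
        · intro j hj1 hj2
          exact hcop _ (((Nat.dvd_factorial hj1 hj2).trans (Dvd.intro_left _ rfl)).trans hMN)
        · exact ht.2
    · intro t _ t' _ htt
      simp only at htt
      have h1 := Nat.eq_of_mul_eq_mul_left (by omega) htt
      have h2 : N * t = N * t' := by omega
      exact Nat.eq_of_mul_eq_mul_left hN h2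
  have h1 : (T : ℝ) ≤ 2 * #{n ∈ Icc 2 x | a n = k} := by
    have : T ≤ 2 * #{n ∈ Icc 2 x | a n = k} := by omega
    exact_mod_cast this
  have h2 : (x : ℝ) < (T + 1) * (n₀ * N : ℕ) := by
    have : x < (T + 1) * (n₀ * N) := by
      have h3 := Nat.div_add_mod x (n₀ * N)
      have h4 := Nat.mod_lt x hnN
      rw [← hTdef] at h3
      nlinarith
    exact_mod_cast this
  have h3 : (2 : ℝ) ≤ T := by
    have : 2 ≤ T := by omega
    exact_mod_cast this
  have h4 : (0 : ℝ) < (n₀ * N : ℕ) := by exact_mod_cast hnN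
  rw [div_mul_eq_mul_div, div_le_iff₀ (by positivity)]
  nlinarith

end Pool.Agent.Results.MP_c5ead3_nt.PositiveDensity
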