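import Pool.Agent.Lib.MP_c5ead3_ntS.Main

/-!
# MP_c5ead3_nt: the multiplier `a n` for integers with a small prime factor

If `a n` is neither `3` nor a power of two, then `a n > 2 ^ 16`, the abundancy index of `n` is less
than `1 + 1 / (2 ^ 17 - 1)`, and `n` has no prime factor below `2 ^ 17`.
-/

set_option autoImplicit false

namespace Pool.Agent.Results.MP_c5ead3_nt.SmallPrimeFactor

open Pool.Agent.Results.MP_c5ead3_nt.ImageIsAlmostPerfect

/-- Let `n ≥ 2`. If `a n` is neither `3` nor a power of two (`1` included), then `a n > 2 ^ 16`,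
`σ(n) / n < 2 ^ 17 / (2 ^ 17 - 1)` and every prime factor of `n` is at least `2 ^ 17`. -/
theorem result (n : ℕ) (hn : 2 ≤ n) (h : ¬ (a n = 3 ∨ ∃ j : ℕ, a n = 2 ^ j)) :
    2 ^ 16 < a n ∧ (2 ^ 17 - 1) * sig n < 2 ^ 17 * n ∧
      ∀ p : ℕ, p.Prime → p ∣ n → 2 ^ 17 ≤ p :=
  SmallPF.main hn h

end Pool.Agent.Results.MP_c5ead3_nt.SmallPrimeFactor
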